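import Mathlib
import Pool.Agent.H99.NC.Plane
import Pool.Agent.H63.Bulk.Final

set_option autoImplicit false

/-!
# The percolation probability near `p = 1/2`: choice of the scale

The elementary last step: from one-arm estimates at the scale `(p - 1/2)^(-4/3)` to the exponent
`5/36` of the percolation probability.
-/

namespace Pool.Agent.H68.NC

open Pool.Agent.H75.Perc Pool.Agent.H99.NC
open Pool.Agent.H63.Bulk (OneArm one_arm_plane)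

/-- the one-arm probability at density `p` -/
noncomputable def pA (p : ℝ) (n : ℕ) : ℝ := (planeP p {ω | OneArm n ω}).toReal

lemma pA_eq {p : ℝ} (h0 : 0 ≤ p) (h1 : p ≤ 1) (n : ℕ) :
    pA p n = PrP (fun _ => p) (Bx (-n) n (-n) n) (armF n) := oneArm_PrP h0 h1 n

lemma armF_inc (n : ℕ) : Inc (armF n) := by
  rintro ω ω' h ⟨v, h1, h2⟩
  exact ⟨v, h1, h2.mono h⟩

lemma pA_mono {p p' : ℝ} (h0 : 0 ≤ p) (hpp : p ≤ p') (h1 : p' ≤ 1) (n : ℕ) : pA p n ≤ pA p' n := by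
  rw [pA_eq h0 (hpp.trans h1), pA_eq (h0.trans hpp) h1]
  exact PrP_mono_q (fun _ => ⟨h0, hpp.trans h1⟩) (fun _ => ⟨h0.trans hpp, h1⟩) (fun _ _ => hpp)
    (armF_inc n)

lemma pA_half_le : ∃ C : ℝ, 0 < C ∧ ∀ n : ℕ, 1 ≤ n → pA (1 / 2) n ≤ C * (n : ℝ) ^ (-(5 / 48) : ℝ) := by
  obtain ⟨c, C, hc, hC, h⟩ := one_arm_plane
  refine ⟨C, hC, fun n hn => ?_⟩
  unfold pA
  rw [planeP_half]
  exact (h n hn).2

lemma le_pA_half : ∃ c : ℝ, 0 < c ∧ ∀ n : ℕ, 1 ≤ n → c * (n : ℝ) ^ (-(5 / 48) : ℝ) ≤ pA (1 / 2) n := by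
  obtain ⟨c, C, hc, hC, h⟩ := one_arm_plane
  refine ⟨c, hc, fun n hn => ?_⟩
  unfold pA
  rw [planeP_half]
  exact (h n hn).1

/-- Upper bound for the percolation probability from the stability of the one-arm probability in the
window `(p - 1/2) n^(3/4) ≤ a`. -/
theorem theta_upper {a C1 : ℝ} (ha : 0 < a) (hC1 : 0 < C1)
    (h : ∀ (p : ℝ) (n : ℕ), 1 / 2 < p → p ≤ 1 → 1 ≤ n → (p - 1 / 2) * (n : ℝ) ^ (3 / 4 : ℝ) ≤ a →
      pA p n ≤ C1 * pA (1 / 2) n) :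
    ∃ C : ℝ, 0 < C ∧ ∀ p : ℝ, 1 / 2 < p → p ≤ 1 → theta p ≤ C * (p - 1 / 2) ^ (5 / 36 : ℝ) := by
  obtain ⟨C2, hC2, h2⟩ := pA_half_le
  -- scale `x = (a / s)^(4/3)`, `n = ⌊x⌋`
  refine ⟨max (C1 * C2 * (2 : ℝ) ^ (5 / 48 : ℝ) * a ^ (-(5 / 36) : ℝ)) (a ^ (-(5 / 36) : ℝ)),
    lt_max_of_lt_right (by positivity), fun p hp hp1 => ?_⟩
  have hs : 0 < p - 1 / 2 := by linarith
  set s := p - 1 / 2 with hsdef
  set x : ℝ := (a / s) ^ (4 / 3 : ℝ) with hx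
  have hx0 : 0 < x := by positivity
  have hxs : x ^ (-(5 / 48) : ℝ) = a ^ (-(5 / 36) : ℝ) * s ^ (5 / 36 : ℝ) := by
    rw [hx, ← Real.rpow_mul (by positivity), Real.div_rpow ha.le hs.le]
    have e1 : (4 / 3 * -(5 / 48) : ℝ) = -(5 / 36) := by norm_num
    rw [e1, Real.rpow_neg hs.le (5 / 36), div_inv_eq_mul]
  have hth := theta_le (by linarith : (0 : ℝ) ≤ p) hp1
  by_cases hx1 : 1 ≤ x
  · set n : ℕ := ⌊x⌋₊ with hn
    have hn1 : 1 ≤ n := (Nat.one_le_floor_iff _).2 hx1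
    have hnx : (n : ℝ) ≤ x := Nat.floor_le hx0.le
    have hnx2 : x ≤ 2 * n := by
      have h3 := Nat.lt_floor_add_one x
      have h4 : (1 : ℝ) ≤ n := by exact_mod_cast hn1
      rw [← hn] at h3
      linarith
    have hwin : s * (n : ℝ) ^ (3 / 4 : ℝ) ≤ a := by
      have h3 : (n : ℝ) ^ (3 / 4 : ℝ) ≤ x ^ (3 / 4 : ℝ) :=
        Real.rpow_le_rpow (Nat.cast_nonneg n) hnx (by norm_num)
      have h4 : x ^ (3 / 4 : ℝ) = a / s := by
        rw [hx, ← Real.rpow_mul (by positivity)]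
        norm_num
      calc s * (n : ℝ) ^ (3 / 4 : ℝ) ≤ s * (a / s) := by
            rw [← h4]
            exact mul_le_mul_of_nonneg_left h3 hs.le
        _ = a := by field_simp
    have h5 := h p n hp hp1 hn1 hwin
    have h6 := h2 n hn1
    have hnpos : (0 : ℝ) < n := by exact_mod_cast hn1
    have h7 : (n : ℝ) ^ (-(5 / 48) : ℝ) ≤ (2 : ℝ) ^ (5 / 48 : ℝ) * x ^ (-(5 / 48) : ℝ) := by
      have h8 : x / 2 ≤ n := by linarith
      calc (n : ℝ) ^ (-(5 / 48) : ℝ) ≤ (x / 2) ^ (-(5 / 48) : ℝ) :=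
            Real.rpow_le_rpow_of_nonpos (by positivity) h8 (by norm_num)
        _ = (2 : ℝ) ^ (5 / 48 : ℝ) * x ^ (-(5 / 48) : ℝ) := by
            rw [Real.div_rpow hx0.le (by norm_num), Real.rpow_neg (by norm_num : (0 : ℝ) ≤ 2)]
            field_simp
    calc theta p ≤ pA p n := hth n
      _ ≤ C1 * pA (1 / 2) n := h5
      _ ≤ C1 * (C2 * (n : ℝ) ^ (-(5 / 48) : ℝ)) := mul_le_mul_of_nonneg_left h6 hC1.le
      _ ≤ C1 * (C2 * ((2 : ℝ) ^ (5 / 48 : ℝ) * x ^ (-(5 / 48) : ℝ))) := by gcongr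
      _ = C1 * C2 * (2 : ℝ) ^ (5 / 48 : ℝ) * a ^ (-(5 / 36) : ℝ) * s ^ (5 / 36 : ℝ) := by
          rw [hxs]; ring
      _ ≤ _ := mul_le_mul_of_nonneg_right (le_max_left _ _) (by positivity)
  · have hx2 : x < 1 := not_le.1 hx1
    have hpr := planeP_prob (by linarith : (0 : ℝ) ≤ p) hp1
    have h3 : theta p ≤ 1 := by
      unfold theta
      exact ENNReal.toReal_le_of_le_ofReal (by norm_num) (by
        rw [ENNReal.ofReal_one]
        exact MeasureTheory.prob_le_one)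
    have h4 : 1 ≤ x ^ (-(5 / 48) : ℝ) :=
      Real.one_le_rpow_of_pos_of_le_one_of_nonpos hx0 hx2.le (by norm_num)
    calc theta p ≤ 1 := h3
      _ ≤ x ^ (-(5 / 48) : ℝ) := h4
      _ = a ^ (-(5 / 36) : ℝ) * s ^ (5 / 36 : ℝ) := hxs
      _ ≤ _ := mul_le_mul_of_nonneg_right (le_max_right _ _) (by positivity)

/-- Lower bound for the percolation probability from the comparison with the one-arm probability
above the window. -/
theorem theta_lower {K c1 : ℝ} (hK : 0 < K) (hc1 : 0 < c1)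
    (h : ∀ (p : ℝ) (n : ℕ), 1 / 2 < p → p ≤ 1 → 1 ≤ n → K ≤ (p - 1 / 2) * (n : ℝ) ^ (3 / 4 : ℝ) →
      c1 * pA p n ≤ theta p) :
    ∃ c : ℝ, 0 < c ∧ ∀ p : ℝ, 1 / 2 < p → p ≤ 1 → c * (p - 1 / 2) ^ (5 / 36 : ℝ) ≤ theta p := by
  obtain ⟨c2, hc2, h2⟩ := le_pA_half
  -- scale `x = (K' / s)^(4/3)` with `K' = max K 1`, `n = ⌈x⌉`
  set K' : ℝ := max K 1 with hK'
  have hK'0 : 0 < K' := lt_max_of_lt_right one_pos
  refine ⟨c1 * c2 * (2 : ℝ) ^ (-(5 / 48) : ℝ) * K' ^ (-(5 / 36) : ℝ), by positivity,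
    fun p hp hp1 => ?_⟩
  have hs : 0 < p - 1 / 2 := by linarith
  set s := p - 1 / 2 with hsdef
  have hs1 : s ≤ 1 := by linarith
  set x : ℝ := (K' / s) ^ (4 / 3 : ℝ) with hx
  have hx1 : 1 ≤ x := by
    refine Real.one_le_rpow ?_ (by norm_num)
    rw [le_div_iff₀ hs]
    calc 1 * s ≤ 1 := by linarith
      _ ≤ K' := le_max_right _ _
  have hx0 : 0 < x := by linarith
  have hxs : x ^ (-(5 / 48) : ℝ) = K' ^ (-(5 / 36) : ℝ) * s ^ (5 / 36 : ℝ) := by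
    rw [hx, ← Real.rpow_mul (by positivity), Real.div_rpow hK'0.le hs.le]
    have e1 : (4 / 3 * -(5 / 48) : ℝ) = -(5 / 36) := by norm_num
    rw [e1, Real.rpow_neg hs.le (5 / 36), div_inv_eq_mul]
  set n : ℕ := ⌈x⌉₊ with hn
  have hnx : x ≤ n := Nat.le_ceil x
  have hn1 : 1 ≤ n := by
    have : (0 : ℝ) < n := by linarith
    exact_mod_cast this
  have hnx2 : (n : ℝ) ≤ 2 * x := by
    have h3 := Nat.ceil_lt_add_one hx0.le
    rw [← hn] at h3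
    linarith
  have hwin : K ≤ s * (n : ℝ) ^ (3 / 4 : ℝ) := by
    have h3 : x ^ (3 / 4 : ℝ) ≤ (n : ℝ) ^ (3 / 4 : ℝ) := Real.rpow_le_rpow hx0.le hnx (by norm_num)
    have h4 : x ^ (3 / 4 : ℝ) = K' / s := by
      rw [hx, ← Real.rpow_mul (by positivity)]
      norm_num
    calc K ≤ K' := le_max_left _ _
      _ = s * (K' / s) := by field_simp
      _ ≤ s * (n : ℝ) ^ (3 / 4 : ℝ) := by
        rw [← h4]
        exact mul_le_mul_of_nonneg_left h3 hs.le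
  have h5 := h p n hp hp1 hn1 hwin
  have h6 := h2 n hn1
  have h7 := pA_mono (by norm_num) (by linarith : (1 : ℝ) / 2 ≤ p) hp1 n
  have h8 : (2 : ℝ) ^ (-(5 / 48) : ℝ) * x ^ (-(5 / 48) : ℝ) ≤ (n : ℝ) ^ (-(5 / 48) : ℝ) := by
    rw [← Real.mul_rpow (by norm_num) hx0.le]
    exact Real.rpow_le_rpow_of_nonpos (by linarith) hnx2 (by norm_num)
  calc c1 * c2 * (2 : ℝ) ^ (-(5 / 48) : ℝ) * K' ^ (-(5 / 36) : ℝ) * s ^ (5 / 36 : ℝ)
      = c1 * (c2 * ((2 : ℝ) ^ (-(5 / 48) : ℝ) * x ^ (-(5 / 48) : ℝ))) := by rw [hxs]; ring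
    _ ≤ c1 * (c2 * (n : ℝ) ^ (-(5 / 48) : ℝ)) := by gcongr
    _ ≤ c1 * pA (1 / 2) n := mul_le_mul_of_nonneg_left h6 hc1.le
    _ ≤ c1 * pA p n := mul_le_mul_of_nonneg_left h7 hc1.le
    _ ≤ theta p := h5

end Pool.Agent.H68.NC
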