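import Mathlib
import Pool.Agent.H99.NC.SuperP
import Pool.Agent.H68.NC.Upper

set_option autoImplicit false

/-!
# The percolation probability near `p = 1/2`: final assembly

`WinArm` (stability of the one-arm probability in the window) and `LBound` (good crossing
probabilities at the scale `(p - 1/2)^(-4/3)`) give the exponent `5/36`.
-/

namespace Pool.Agent.H68.NC

open Pool.Agent.H75.Perc Pool.Agent.H99.NC
open Pool.Agent.H63.Bulk (OneArm one_arm_plane)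

/-- the one-arm probability at density `p` -/
noncomputable abbrev pi1 (p : ℝ) (n : ℕ) : ℝ := (planeP p {ω | OneArm n ω}).toReal

/-- stability of the one-arm probability in the window `(p - 1/2) n^(3/4) ≤ a` -/
def WinArm : Prop := ∃ a C : ℝ, 0 < a ∧ 0 < C ∧ ∀ p : ℝ, 1 / 2 ≤ p → p ≤ 1 → ∀ n : ℕ, 1 ≤ n →
  (p - 1 / 2) * (n : ℝ) ^ (3 / 4 : ℝ) ≤ a → pi1 p n ≤ C * pi1 (1 / 2) n

/-- at some scale `n ≤ K (p - 1/2)^(-4/3)` the squares of size `n` and `2 n` are crossed with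
probability close to one -/
def LBound : Prop := ∃ K : ℝ, 0 < K ∧ ∀ p : ℝ, 1 / 2 < p → p ≤ 1 → ∃ n : ℕ, 1 ≤ n ∧
  (n : ℝ) ≤ K * (p - 1 / 2) ^ (-(4 / 3) : ℝ) ∧ 1 - (1 / 1250) ^ 2 ≤ fcP p n n ∧
  1 - (1 / 1250) ^ 2 ≤ fcP p (2 * n) (2 * n)

theorem theta_ub (h : WinArm) :
    ∃ C : ℝ, 0 < C ∧ ∀ p : ℝ, 1 / 2 < p → p ≤ 1 → theta p ≤ C * (p - 1 / 2) ^ (5 / 36 : ℝ) := by
  obtain ⟨a, C, ha, hC, h⟩ := h
  exact theta_upper ha hC (fun p n hp hp1 hn hw => h p hp.le hp1 n hn hw)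

theorem theta_lb (h : LBound) :
    ∃ c : ℝ, 0 < c ∧ ∀ p : ℝ, 1 / 2 < p → p ≤ 1 → c * (p - 1 / 2) ^ (5 / 36 : ℝ) ≤ theta p := by
  obtain ⟨K, hK, h⟩ := h
  obtain ⟨c2, hc2, h2⟩ := le_pA_half
  refine ⟨1 / 8 * (c2 * (3 * K) ^ (-(5 / 48) : ℝ)), by positivity, fun p hp hp1 => ?_⟩
  obtain ⟨n, hn, hnK, h3, h4⟩ := h p hp hp1
  have hs : 0 < p - 1 / 2 := by linarith
  have p0 : (0 : ℝ) ≤ p := by linarith
  have hge := theta_ge' p0 hp1 hn h3 h4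
  have e1 : PrP (cp p) (Bx (-((2 * n + 1 : ℕ) : ℤ)) ((2 * n + 1 : ℕ) : ℤ)
      (-((2 * n + 1 : ℕ) : ℤ)) ((2 * n + 1 : ℕ) : ℤ)) (armF (2 * n + 1)) = pA p (2 * n + 1) := by
    rw [pA_eq p0 hp1]
    rfl
  rw [e1] at hge
  have hmono : pA (1 / 2) (2 * n + 1) ≤ pA p (2 * n + 1) := pA_mono (by norm_num) hp.le hp1 _
  have h5 := h2 (2 * n + 1) (by omega)
  have hnpos : (1 : ℝ) ≤ n := by exact_mod_cast hn
  have h6 : (((2 * n + 1 : ℕ) : ℕ) : ℝ) ≤ 3 * K * (p - 1 / 2) ^ (-(4 / 3) : ℝ) := by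
    push_cast
    calc 2 * (n : ℝ) + 1 ≤ 3 * n := by linarith
      _ ≤ 3 * (K * (p - 1 / 2) ^ (-(4 / 3) : ℝ)) := by linarith
      _ = _ := by ring
  have h7 : (3 * K) ^ (-(5 / 48) : ℝ) * (p - 1 / 2) ^ (5 / 36 : ℝ) ≤
      (((2 * n + 1 : ℕ) : ℕ) : ℝ) ^ (-(5 / 48) : ℝ) := by
    have h8 : (3 * K * (p - 1 / 2) ^ (-(4 / 3) : ℝ)) ^ (-(5 / 48) : ℝ) =
        (3 * K) ^ (-(5 / 48) : ℝ) * (p - 1 / 2) ^ (5 / 36 : ℝ) := by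
      rw [Real.mul_rpow (by positivity) (by positivity), ← Real.rpow_mul hs.le]
      norm_num
    rw [← h8]
    exact Real.rpow_le_rpow_of_nonpos (by positivity) h6 (by norm_num)
  calc 1 / 8 * (c2 * (3 * K) ^ (-(5 / 48) : ℝ)) * (p - 1 / 2) ^ (5 / 36 : ℝ)
      = 1 / 8 * (c2 * ((3 * K) ^ (-(5 / 48) : ℝ) * (p - 1 / 2) ^ (5 / 36 : ℝ))) := by ring
    _ ≤ 1 / 8 * (c2 * (((2 * n + 1 : ℕ) : ℕ) : ℝ) ^ (-(5 / 48) : ℝ)) := by gcongr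
    _ ≤ 1 / 8 * pA (1 / 2) (2 * n + 1) := by gcongr
    _ ≤ 1 / 8 * pA p (2 * n + 1) := by gcongr
    _ ≤ theta p := hge

/-- The exponent `5/36` of the percolation probability. -/
theorem theta_bounds (h1 : WinArm) (h2 : LBound) :
    ∃ c C : ℝ, 0 < c ∧ 0 < C ∧ ∀ p : ℝ, 1 / 2 < p → p ≤ 1 →
      c * (p - 1 / 2) ^ (5 / 36 : ℝ) ≤ theta p ∧ theta p ≤ C * (p - 1 / 2) ^ (5 / 36 : ℝ) := by
  obtain ⟨C, hC, hu⟩ := theta_ub h1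
  obtain ⟨c, hc, hl⟩ := theta_lb h2
  exact ⟨c, C, hc, hC, fun p hp hp1 => ⟨hl p hp hp1, hu p hp hp1⟩⟩

end Pool.Agent.H68.NC
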